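import Mathlib

open MeasureTheory ProbabilityTheory Filter Finset
open scoped Topology ENNReal

namespace Pool.Agent.Results.MP_fbfbfd_pr.LowerDimensionsDiffer

/-! ### The macroscopic dimensions -/

/-- points of `ℤ^d` -/
abbrev Pt (d : ℕ) : Type := Fin d → ℤ

/-- `V_k = [-2^k, 2^k)^d` -/
def V (d k : ℕ) : Set (Pt d) := {x | ∀ i, -2 ^ k ≤ x i ∧ x i < 2 ^ k}

/-- the shells `S_0 = V_0`, `S_{k+1} = V_{k+1} \ V_k` -/
def Sh (d : ℕ) : ℕ → Set (Pt d)
  | 0 => V d 0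
  | k + 1 => V d (k + 1) \ V d k

/-- the dyadic cube of side `2^l` with index `j` -/
def cube (d l : ℕ) (j : Pt d) : Set (Pt d) := {x | ∀ i, j i * 2 ^ l ≤ x i ∧ x i < (j i + 1) * 2 ^ l}

/-- `N_α(A, S_k)`: least cost of a finite cover of `A ∩ S_k` by dyadic cubes -/
noncomputable def NN {d : ℕ} (α : ℝ) (A : Set (Pt d)) (k : ℕ) : ℝ :=
  sInf {r : ℝ | ∃ C : Finset (ℕ × Pt d), (A ∩ Sh d k ⊆ ⋃ c ∈ C, cube d c.1 c.2) ∧
    r = ∑ c ∈ C, (2 : ℝ) ^ (α * ((c.1 : ℝ) - k - 1))}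

/-- the lower Hausdorff dimension -/
noncomputable def lowerH {d : ℕ} (A : Set (Pt d)) : EReal :=
  sInf ((fun α : ℝ => (α : EReal)) '' {α | 0 < α ∧ Tendsto (fun k => NN α A k) atTop (𝓝 0)})

/-- the lower Minkowski dimension -/
noncomputable def lowerM {d : ℕ} (A : Set (Pt d)) : EReal :=
  liminf (fun n : ℕ => ((1 / (n : ℝ) * Real.logb 2 ((A ∩ V d n).ncard : ℝ) : ℝ) : EReal)) atTop

/-! ### Random walks -/

/-- the law of the i.i.d. steps -/
noncomputable def law {d : ℕ} (p : PMF (Pt d)) : Measure (ℕ → Pt d) :=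
  Measure.infinitePi fun _ => p.toMeasure

/-- the walk `X_n = ξ_1 + ⋯ + ξ_n` -/
def X {d : ℕ} (n : ℕ) (ω : ℕ → Pt d) : Pt d := ∑ i ∈ range n, ω i

/-- the range of the walk -/
def Rg {d : ℕ} (ω : ℕ → Pt d) : Set (Pt d) := Set.range fun n => X n ω

/-- the Green function `g(0, x)` -/
noncomputable def green {d : ℕ} (p : PMF (Pt d)) (x : Pt d) : ℝ≥0∞ :=
  ∑' n : ℕ, law p {ω | X n ω = x}

/-- transience -/
def Transient {d : ℕ} (p : PMF (Pt d)) : Prop := ∀ x, green p x ≠ ∞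

/-- `U(A) = ∑_n P(X_n ∈ A)` -/
noncomputable def U {d : ℕ} (p : PMF (Pt d)) (A : Set (Pt d)) : ℝ≥0∞ :=
  ∑' n : ℕ, law p {ω | X n ω ∈ A}

/-- `λ_X = liminf (1/n) log_2 U(V_n)` -/
noncomputable def lamX {d : ℕ} (p : PMF (Pt d)) : EReal :=
  liminf (fun n : ℕ => ((1 / (n : ℝ) * Real.logb 2 (U p (V d n)).toReal : ℝ) : EReal)) atTop

instance {d : ℕ} (p : PMF (Pt d)) : IsProbabilityMeasure (law p) := by
  unfold law; infer_instance

/-! ### Parameters -/

/-- the pair `(m_k, M_k)` -/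
def mM : ℕ → ℕ × ℕ
  | 0 => (0, 0)
  | k + 1 => ((mM k).2 + (mM k).1 + 11,
      (k + 1) * ((mM k).2 + (mM k).1 + 11) + ((mM k).2 + (mM k).1 + 11) + (mM k).2 + 5)

/-- `m_k` -/
def m (k : ℕ) : ℕ := (mM k).1

/-- `M_k` -/
def M (k : ℕ) : ℕ := (mM k).2

theorem m_zero : m 0 = 0 := rfl

theorem m_succ (k : ℕ) : m (k + 1) = M k + m k + 11 := rfl

theorem M_succ (k : ℕ) : M (k + 1) = (k + 1) * m (k + 1) + m (k + 1) + M k + 5 := rfl

theorem m_strictMono : StrictMono m := strictMono_nat_of_lt_succ fun k => by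
  rw [m_succ]; omega

theorem M_strictMono : StrictMono M := strictMono_nat_of_lt_succ fun k => by
  rw [M_succ]; omega

/-- the level of `j` -/
def level (j : ℕ) : ℕ := Nat.findGreatest (fun k => m k ≤ j) j

theorem le_level_iff (k j : ℕ) : k ≤ level j ↔ m k ≤ j := by
  constructor
  · intro h
    have h1 : m (level j) ≤ j := by
      have := Nat.findGreatest_spec (P := fun k => m k ≤ j) (n := j) (m := 0) (Nat.zero_le _)
        (by rw [m_zero]; exact Nat.zero_le _)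
      exact this
    exact le_trans (m_strictMono.monotone h) h1
  · intro h
    exact Nat.le_findGreatest (le_trans m_strictMono.le_apply h) h

/-! ### The geometric variable and the step law -/

/-- `P(G = j) = 2^{-(j+1)}` -/
noncomputable def geo : PMF ℕ :=
  ⟨fun j => (2⁻¹ : ℝ≥0∞) ^ (j + 1), by
    have h : ∑' j : ℕ, (2⁻¹ : ℝ≥0∞) ^ (j + 1) = 1 := by
      rw [ENNReal.tsum_geometric_add_one, ENNReal.one_sub_inv_two, inv_inv]
      exact ENNReal.inv_mul_cancel (by norm_num) (by norm_num)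
    rw [← h]
    exact ENNReal.summable.hasSum⟩

theorem geo_apply (j : ℕ) : geo j = (2⁻¹ : ℝ≥0∞) ^ (j + 1) := rfl

theorem geo_Ici (k : ℕ) : geo.toMeasure (Set.Ici k) = (2⁻¹ : ℝ≥0∞) ^ k := by
  induction k with
  | zero =>
    have : (Set.Ici 0 : Set ℕ) = Set.univ := by ext; simp
    rw [this, measure_univ, pow_zero]
  | succ k ih =>
    have h1 : (Set.Ici k : Set ℕ) = {k} ∪ Set.Ici (k + 1) := by
      ext x; simp only [Set.mem_Ici, Set.mem_union, Set.mem_singleton_iff]; omega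
    rw [h1, measure_union (by simp) measurableSet_Ici,
      PMF.toMeasure_apply_singleton _ _ (measurableSet_singleton k), geo_apply] at ih
    have h2 : (2⁻¹ : ℝ≥0∞) ^ k = 2⁻¹ ^ (k + 1) + 2⁻¹ ^ (k + 1) := by
      rw [pow_succ, ← mul_add, ENNReal.inv_two_add_inv_two, mul_one]
    rw [h2] at ih
    exact (ENNReal.add_right_inj (by simp)).1 ih

/-- the step attached to `j` -/
def stp (j : ℕ) : Pt 1 := fun _ => 2 ^ M (level j)

/-- the step law -/
noncomputable def p : PMF (Pt 1) := geo.map stp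

/-- steps of level at least `k` -/
def Big (k : ℕ) : Set (Pt 1) := {x | 2 ^ M k ≤ x 0}

theorem meas_any (s : Set (Pt 1)) : MeasurableSet s := s.to_countable.measurableSet

theorem p_Big (k : ℕ) : p.toMeasure (Big k) = (2⁻¹ : ℝ≥0∞) ^ m k := by
  rw [p, PMF.toMeasure_map_apply _ _ _ (by exact measurable_from_top) (meas_any _), ← geo_Ici]
  congr 1
  ext j
  simp only [Set.mem_preimage, Big, Set.mem_ofPred_eq, stp, Set.mem_Ici]
  rw [← le_level_iff]
  constructor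
  · intro h
    have h1 : M k ≤ M (level j) := (pow_le_pow_iff_right₀ (by norm_num : (1 : ℤ) < 2)).1 h
    exact M_strictMono.le_iff_le.1 h1
  · intro h
    exact pow_le_pow_right₀ (by norm_num) (M_strictMono.monotone h)

theorem ae_step : ∀ᵐ ω ∂(law p), ∀ i, ∃ l, ω i = fun _ => 2 ^ M l := by
  rw [ae_all_iff]
  intro i
  have h1 : ∀ᵐ x ∂((law p).map (fun ω => ω i)), ∃ l, x = fun _ => 2 ^ M l := by
    have : (law p).map (fun ω => ω i) = p.toMeasure := by
      unfold law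
      exact Measure.infinitePi_map_eval _ i
    rw [this, ae_iff, PMF.toMeasure_apply_eq_zero_iff _ (meas_any _), Set.disjoint_left]
    intro x hx hx0
    rw [p, PMF.mem_support_map_iff] at hx
    obtain ⟨j, _, rfl⟩ := hx
    exact hx0 ⟨level j, rfl⟩
  exact ae_of_ae_map (measurable_pi_apply i).aemeasurable h1

theorem p_compl (k : ℕ) : p.toMeasure (Big k)ᶜ = 1 - (2⁻¹ : ℝ≥0∞) ^ m k := by
  rw [measure_compl (meas_any _) (measure_ne_top _ _), measure_univ, p_Big]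

theorem prob_no_big (k : ℕ) (s : Finset ℕ) :
    law p {ω | ∀ i ∈ s, ω i ∉ Big k} = (1 - (2⁻¹ : ℝ≥0∞) ^ m k) ^ #s := by
  have h1 : {ω : ℕ → Pt 1 | ∀ i ∈ s, ω i ∉ Big k} = Set.pi s fun _ => (Big k)ᶜ := by
    ext ω; simp [Set.mem_pi]
  rw [h1]
  unfold law
  rw [Measure.infinitePi_pi _ (fun _ _ => meas_any _)]
  simp only [p_compl, prod_const]

theorem prob_big (k i : ℕ) : law p {ω | ω i ∈ Big k} = (2⁻¹ : ℝ≥0∞) ^ m k := by
  have h1 : {ω : ℕ → Pt 1 | ω i ∈ Big k} = Set.pi ({i} : Finset ℕ) fun _ => Big k := by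
    ext ω; simp [Set.mem_pi]
  rw [h1]
  unfold law
  rw [Measure.infinitePi_pi _ (fun _ _ => meas_any _)]
  simp only [p_Big, prod_const, card_singleton, pow_one]

/-! ### Transience and `λ_X = 0` -/

/-- steps are powers `2^{M_l}` -/
def Good (ω : ℕ → Pt 1) : Prop := ∀ i, ∃ l, ω i = fun _ => 2 ^ M l

theorem X_apply (n : ℕ) (ω : ℕ → Pt 1) : X n ω 0 = ∑ i ∈ range n, ω i 0 := by
  simp [X, Finset.sum_apply]

theorem X_succ (n : ℕ) (ω : ℕ → Pt 1) : X (n + 1) ω 0 = X n ω 0 + ω n 0 := by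
  rw [X_apply, X_apply, sum_range_succ]

theorem Good.nonneg {ω : ℕ → Pt 1} (h : Good ω) (i : ℕ) : 0 ≤ ω i 0 := by
  obtain ⟨l, hl⟩ := h i
  rw [hl]; positivity

theorem U_le (k : ℕ) : U p (V 1 (M k)) ≤ (2 : ℝ≥0∞) ^ m k := by
  have h1 : ∀ n : ℕ, law p {ω | X n ω ∈ V 1 (M k)} ≤ (1 - (2⁻¹ : ℝ≥0∞) ^ m k) ^ n := by
    intro n
    have h2 := prob_no_big k (range n)
    rw [card_range] at h2
    rw [← h2]
    apply measure_mono_ae
    filter_upwards [ae_step] with ω hω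
    intro hX i hi hbig
    have hX' : X n ω 0 < 2 ^ M k := (hX 0).2
    rw [X_apply] at hX'
    have h3 : ω i 0 ≤ ∑ i ∈ range n, ω i 0 :=
      single_le_sum (f := fun i => ω i 0) (fun i _ => Good.nonneg hω i) hi
    have h4 : 2 ^ M k ≤ ω i 0 := hbig
    linarith
  refine le_trans (ENNReal.tsum_le_tsum h1) ?_
  rw [ENNReal.tsum_geometric]
  have h3 : (2⁻¹ : ℝ≥0∞) ^ m k ≤ 1 := pow_le_one₀ (zero_le) (by simp)
  rw [ENNReal.sub_sub_cancel ENNReal.one_ne_top h3, ← ENNReal.inv_pow, inv_inv]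

theorem one_le_U (n : ℕ) : 1 ≤ U p (V 1 n) := by
  have h1 : law p {ω | X 0 ω ∈ V 1 n} = 1 := by
    have : {ω : ℕ → Pt 1 | X 0 ω ∈ V 1 n} = Set.univ := by
      ext ω
      simp only [X, range_zero, sum_empty, V, Set.mem_ofPred_eq, Pi.zero_apply, Set.mem_univ,
        iff_true]
      intro _
      constructor
      · have : (0 : ℤ) < 2 ^ n := by positivity
        linarith
      · positivity
    rw [this, measure_univ]
  rw [← h1]
  exact ENNReal.le_tsum 0

theorem transient : Transient p := by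
  intro x
  obtain ⟨k, hk⟩ : ∃ k, x ∈ V 1 (M k) := by
    obtain ⟨n, hn⟩ := pow_unbounded_of_one_lt (|x 0| + 1) (by norm_num : (1 : ℤ) < 2)
    refine ⟨n, fun i => ?_⟩
    have hi : i = 0 := Subsingleton.elim _ _
    subst hi
    have h1 : (2 : ℤ) ^ n ≤ 2 ^ M n := pow_le_pow_right₀ (by norm_num) M_strictMono.le_apply
    have h2 := abs_lt.1 (show |x 0| < 2 ^ M n by linarith)
    exact ⟨h2.1.le, h2.2⟩
  have h1 : green p x ≤ U p (V 1 (M k)) := by
    apply ENNReal.tsum_le_tsum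
    intro n
    apply measure_mono
    intro ω hω
    show X n ω ∈ V 1 (M k)
    have : X n ω = x := hω
    rwa [this]
  exact ne_top_of_le_ne_top (by simp) (le_trans h1 (U_le k))

theorem lam_zero : lamX p = 0 := by
  apply le_antisymm
  · apply EReal.le_of_forall_lt_iff_le.1
    intro z hz
    have hz' : (0 : ℝ) < z := by exact_mod_cast hz
    unfold lamX
    apply liminf_le_of_frequently_le'
    rw [frequently_atTop]
    intro a
    obtain ⟨N, hN⟩ := exists_nat_gt (1 / z)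
    refine ⟨M (max a N + 1), le_trans (le_trans (le_max_left a N) (Nat.le_succ _))
      M_strictMono.le_apply, ?_⟩
    rw [EReal.coe_le_coe_iff]
    set k := max a N with hk
    have hm : (0 : ℝ) < m (k + 1) := by
      have : 0 < m (k + 1) := by rw [m_succ]; omega
      exact_mod_cast this
    have hM : ((k + 1 : ℕ) : ℝ) * m (k + 1) ≤ M (k + 1) := by
      have : (k + 1) * m (k + 1) ≤ M (k + 1) := by rw [M_succ]; omega
      exact_mod_cast this
    have hU : (U p (V 1 (M (k + 1)))).toReal ≤ 2 ^ m (k + 1) := by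
      have := ENNReal.toReal_mono (by simp) (U_le (k + 1))
      simpa using this
    have hU1 : 1 ≤ (U p (V 1 (M (k + 1)))).toReal := by
      have := ENNReal.toReal_mono (ne_top_of_le_ne_top (by simp) (U_le (k + 1)))
        (one_le_U (M (k + 1)))
      simpa using this
    have hlog : Real.logb 2 (U p (V 1 (M (k + 1)))).toReal ≤ m (k + 1) := by
      have := Real.logb_le_logb_of_le (b := 2) (by norm_num) (by linarith) hU
      rwa [Real.logb_pow, Real.logb_self_eq_one (by norm_num), mul_one] at this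
    have hMpos : (0 : ℝ) < M (k + 1) := lt_of_lt_of_le (by positivity) hM
    have hkz : 1 / z < ((k + 1 : ℕ) : ℝ) := by
      refine lt_trans hN ?_
      have : N < k + 1 := lt_of_le_of_lt (le_max_right a N) (Nat.lt_succ_self _)
      exact_mod_cast this
    rw [one_div, inv_mul_le_iff₀ hMpos]
    rw [div_lt_iff₀ hz'] at hkz
    calc Real.logb 2 (U p (V 1 (M (k + 1)))).toReal ≤ m (k + 1) := hlog
      _ ≤ (((k + 1 : ℕ) : ℝ) * z) * m (k + 1) := by nlinarith
      _ = (((k + 1 : ℕ) : ℝ) * m (k + 1)) * z := by ring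
      _ ≤ M (k + 1) * z := mul_le_mul_of_nonneg_right hM hz'.le
  · unfold lamX
    apply le_liminf_of_le
    · isBoundedDefault
    · filter_upwards with n
      have h0 : (0 : ℝ) ≤ 1 / (n : ℝ) * Real.logb 2 (U p (V 1 n)).toReal := by
        apply mul_nonneg (by positivity)
        by_cases ht : U p (V 1 n) = ∞
        · rw [ht]; simp
        · apply Real.logb_nonneg (by norm_num)
          have := ENNReal.toReal_mono ht (one_le_U n)
          simpa using this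
      exact_mod_cast h0

/-! ### The good events -/

/-- the scale `B` -/
def B (k : ℕ) : ℕ := 2 ^ (M (k + 1) + 5)

/-- the block `b` of indices -/
def blk (k b : ℕ) : Finset ℕ := Finset.Ico (b * 2 ^ m (k + 1)) ((b + 1) * 2 ^ m (k + 1))

/-- the number of steps considered -/
def Tm (k : ℕ) : ℕ := 8 * B k * 2 ^ m (k + 1)

theorem card_blk (k b : ℕ) : #(blk k b) = 2 ^ m (k + 1) := by
  unfold blk
  rw [Nat.card_Ico, ← Nat.sub_mul]
  simp

theorem half_bound (j : ℕ) : (1 - (2⁻¹ : ℝ≥0∞) ^ j) ^ (2 ^ j) ≤ 2⁻¹ := by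
  have h1 : (2⁻¹ : ℝ≥0∞) ^ j = ENNReal.ofReal ((1 / 2) ^ j) := by
    rw [ENNReal.ofReal_pow (by norm_num)]
    congr 1
    rw [ENNReal.ofReal_div_of_pos (by norm_num)]
    simp
  have h2 : (2⁻¹ : ℝ≥0∞) = ENNReal.ofReal (1 / 2) := by
    rw [ENNReal.ofReal_div_of_pos (by norm_num)]
    simp
  rw [h1, ← ENNReal.ofReal_one, ← ENNReal.ofReal_sub _ (by positivity), h2, ← ENNReal.ofReal_pow]
  · apply ENNReal.ofReal_le_ofReal
    set y : ℝ := (1 / 2) ^ j with hy
    have hy0 : 0 < y := by positivity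
    have hy1 : y ≤ 1 := pow_le_one₀ (by norm_num) (by norm_num)
    have hn : ((2 ^ j : ℕ) : ℝ) * y = 1 := by
      rw [hy]; push_cast; rw [← mul_pow]; norm_num
    have hb : 1 + ((2 ^ j : ℕ) : ℝ) * y ≤ (1 + y) ^ (2 ^ j) :=
      one_add_mul_le_pow (by linarith) _
    rw [hn] at hb
    have h3 : (1 - y) ^ (2 ^ j) * (1 + y) ^ (2 ^ j) ≤ 1 := by
      rw [← mul_pow]
      apply pow_le_one₀ <;> nlinarith
    have h4 : 0 ≤ (1 - y) ^ (2 ^ j) := pow_nonneg (by linarith) _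
    nlinarith
  · have : ((1 : ℝ) / 2) ^ j ≤ 1 := pow_le_one₀ (by norm_num) (by norm_num)
    linarith

/-- the block `b` contains no step of level at least `k+1` -/
def Emp (k b : ℕ) : Set (ℕ → Pt 1) := {ω | ∀ i ∈ blk k b, ω i ∉ Big (k + 1)}

theorem meas_coord (i : ℕ) (s : Set (Pt 1)) : MeasurableSet {ω : ℕ → Pt 1 | ω i ∈ s} :=
  (measurable_pi_apply i) (meas_any s)

theorem meas_Emp (k b : ℕ) : MeasurableSet (Emp k b) := by
  have : Emp k b = ⋂ i ∈ blk k b, {ω | ω i ∈ (Big (k + 1))ᶜ} := by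
    ext ω; simp [Emp]
  rw [this]
  exact Finset.measurableSet_biInter _ fun i _ => meas_coord i _

theorem prob_Emp (k b : ℕ) : law p (Emp k b) ≤ 2⁻¹ := by
  have := prob_no_big (k + 1) (blk k b)
  rw [card_blk] at this
  unfold Emp
  rw [this]
  exact half_bound _

open Classical in
/-- number of empty blocks among the first `8B` -/
noncomputable def nEmp (k : ℕ) (ω : ℕ → Pt 1) : ℕ := #{b ∈ range (8 * B k) | ω ∈ Emp k b}

theorem nEmp_eq (k : ℕ) (ω : ℕ → Pt 1) :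
    (nEmp k ω : ℝ≥0∞) = ∑ b ∈ range (8 * B k), (Emp k b).indicator 1 ω := by
  classical
  unfold nEmp
  rw [card_filter]
  push_cast
  apply sum_congr rfl
  intro b _
  by_cases h : ω ∈ Emp k b <;> simp [h]

theorem prob_many_empty (k : ℕ) : law p {ω | 6 * B k ≤ nEmp k ω} ≤ 2 / 3 := by
  have hB : 0 < B k := by unfold B; positivity
  have h1 : ∫⁻ ω, (nEmp k ω : ℝ≥0∞) ∂(law p) ≤ 4 * B k := by
    simp only [nEmp_eq]
    rw [lintegral_finsetSum _ (fun b _ => measurable_one.indicator (meas_Emp k b))]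
    calc ∑ b ∈ range (8 * B k), ∫⁻ ω, (Emp k b).indicator 1 ω ∂(law p)
        ≤ ∑ b ∈ range (8 * B k), (2⁻¹ : ℝ≥0∞) := by
          apply sum_le_sum
          intro b _
          rw [lintegral_indicator_one (meas_Emp k b)]
          exact prob_Emp k b
      _ = 4 * B k := by
          rw [sum_const, card_range, nsmul_eq_mul]
          push_cast
          have : (8 : ℝ≥0∞) = 4 * 2 := by norm_num
          rw [this]
          calc (4 * 2 * (B k : ℝ≥0∞)) * 2⁻¹ = 4 * (B k : ℝ≥0∞) * (2 * 2⁻¹) := by ring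
            _ = 4 * B k := by rw [ENNReal.mul_inv_cancel (by norm_num) (by norm_num), mul_one]
  have hmeas : Measurable fun ω => (nEmp k ω : ℝ≥0∞) := by
    simp only [nEmp_eq]
    exact Finset.measurable_fun_sum _ fun b _ => measurable_one.indicator (meas_Emp k b)
  have h2 := mul_meas_ge_le_lintegral hmeas (6 * B k : ℝ≥0∞) (μ := law p)
  have h3 : {ω : ℕ → Pt 1 | 6 * B k ≤ nEmp k ω} =
      {ω | (6 * B k : ℝ≥0∞) ≤ (nEmp k ω : ℝ≥0∞)} := by
    ext ω
    simp only [Set.mem_ofPred_eq]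
    exact_mod_cast Iff.rfl
  rw [h3]
  have h4 := le_trans h2 h1
  have hB0 : (B k : ℝ≥0∞) ≠ 0 := by exact_mod_cast hB.ne'
  rw [mul_assoc, mul_comm (B k : ℝ≥0∞), ← mul_assoc] at h4
  generalize law p {ω | (6 * B k : ℝ≥0∞) ≤ (nEmp k ω : ℝ≥0∞)} = P at h4 ⊢
  have h5 : 6 * P ≤ 4 :=
    (ENNReal.mul_le_mul_iff_left hB0 (ENNReal.natCast_ne_top _)).1 h4
  rw [ENNReal.le_div_iff_mul_le (by left; norm_num) (by left; norm_num)]
  have h6 : (6 : ℝ≥0∞) = 2 * 3 := by norm_num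
  have h7 : (4 : ℝ≥0∞) = 2 * 2 := by norm_num
  rw [h6, h7, mul_assoc] at h5
  have h8 := (ENNReal.mul_le_mul_iff_right (by norm_num) (by norm_num)).1 h5
  rwa [mul_comm]

/-- no step of level at least `k+2` among the first `T` ones -/
theorem prob_level (k : ℕ) : law p {ω | ∃ i < Tm k, ω i ∈ Big (k + 2)} ≤ 8⁻¹ := by
  have h1 : {ω : ℕ → Pt 1 | ∃ i < Tm k, ω i ∈ Big (k + 2)} =
      ⋃ i ∈ range (Tm k), {ω | ω i ∈ Big (k + 2)} := by
    ext ω; simp
  rw [h1]
  refine le_trans (measure_biUnion_finset_le _ _) ?_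
  simp only [prob_big, sum_const, card_range, nsmul_eq_mul]
  have h2 : Tm k = 2 ^ (M (k + 1) + m (k + 1) + 8) := by
    unfold Tm B
    rw [show (8 : ℕ) = 2 ^ 3 by norm_num, ← pow_add, ← pow_add]
    congr 1; ring
  have h3 : m (k + 2) = (M (k + 1) + m (k + 1) + 8) + 3 := by rw [m_succ]
  rw [h2, h3]
  push_cast
  rw [pow_add (2⁻¹ : ℝ≥0∞) _ 3, ← mul_assoc, ← mul_pow, ENNReal.mul_inv_cancel (by norm_num) (by norm_num),
    one_pow, one_mul]
  rw [← ENNReal.inv_pow]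
  norm_num

/-- the good event -/
def Ev (k : ℕ) : Set (ℕ → Pt 1) := {ω | (∀ i < Tm k, ω i ∉ Big (k + 2)) ∧ nEmp k ω < 6 * B k}

theorem prob_Ev_compl (k : ℕ) : law p (Ev k)ᶜ ≤ 8⁻¹ + 2 / 3 := by
  have h1 : (Ev k)ᶜ ⊆ {ω | ∃ i < Tm k, ω i ∈ Big (k + 2)} ∪ {ω | 6 * B k ≤ nEmp k ω} := by
    intro ω hω
    by_cases h : ∃ i < Tm k, ω i ∈ Big (k + 2)
    · left; exact h
    · right
      show 6 * B k ≤ nEmp k ω
      by_contra hcon
      apply hω
      push Not at h hcon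
      exact ⟨h, hcon⟩
  exact le_trans (measure_mono h1) (le_trans (measure_union_le _ _)
    (add_le_add (prob_level k) (prob_many_empty k)))

theorem limsup_pos : 0 < law p {ω | ∃ᶠ k in atTop, ω ∈ Ev k} := by
  by_contra hcon
  have h0 : law p {ω | ∃ᶠ k in atTop, ω ∈ Ev k} = 0 := by simpa using hcon
  have h1 : law p {ω | ∀ᶠ k in atTop, ω ∈ (Ev k)ᶜ} = 1 := by
    have h2 : ({ω | ∀ᶠ k in atTop, ω ∈ (Ev k)ᶜ} : Set (ℕ → Pt 1)) =ᵐ[law p] Set.univ := by
      rw [ae_eq_univ]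
      have : ({ω | ∀ᶠ k in atTop, ω ∈ (Ev k)ᶜ} : Set (ℕ → Pt 1))ᶜ =
          {ω | ∃ᶠ k in atTop, ω ∈ Ev k} := by
        ext ω
        simp [Filter.Frequently]
      rw [this]
      exact h0
    rw [measure_congr h2, measure_univ]
  have h3 : {ω : ℕ → Pt 1 | ∀ᶠ k in atTop, ω ∈ (Ev k)ᶜ} =
      ⋃ K : ℕ, {ω | ∀ k ≥ K, ω ∈ (Ev k)ᶜ} := by
    ext ω
    simp [eventually_atTop]
  have hmono : Monotone fun K : ℕ => {ω : ℕ → Pt 1 | ∀ k ≥ K, ω ∈ (Ev k)ᶜ} := by
    intro K K' h ω hω k hk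
    exact hω k (le_trans h hk)
  rw [h3, hmono.measure_iUnion] at h1
  have h4 : (⨆ K : ℕ, law p {ω : ℕ → Pt 1 | ∀ k ≥ K, ω ∈ (Ev k)ᶜ}) ≤ 8⁻¹ + 2 / 3 := by
    apply iSup_le
    intro K
    refine le_trans (measure_mono ?_) (prob_Ev_compl K)
    intro ω hω
    exact hω K le_rfl
  rw [h1] at h4
  have h5 : (8⁻¹ : ℝ≥0∞) + 2 / 3 < 1 := by
    have e1 : (8⁻¹ : ℝ≥0∞) = ENNReal.ofReal (1 / 8) := by
      rw [ENNReal.ofReal_div_of_pos (by norm_num)]; simp
    have e2 : (2 / 3 : ℝ≥0∞) = ENNReal.ofReal (2 / 3) := by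
      rw [ENNReal.ofReal_div_of_pos (by norm_num)]; simp
    rw [e1, e2, ← ENNReal.ofReal_add (by norm_num) (by norm_num), ENNReal.ofReal_lt_one]
    norm_num
  exact absurd h4 (not_le.2 h5)

/-! ### The mass distribution principle -/

open Classical in
theorem count_le {Q lo hi : ℕ} {x : ℕ → ℤ}
    (hsep : ∀ j j', lo ≤ j → j ≤ j' → j' < hi → ((j' : ℤ) - j) * 2 ^ Q ≤ x j' - x j)
    (l : ℕ) (c : Pt 1) :
    (#{j ∈ Finset.Ico lo hi | (fun _ => x j : Pt 1) ∈ cube 1 l c} : ℝ) ≤ 2 ^ l / 2 ^ Q + 1 := by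
  set S := {j ∈ Finset.Ico lo hi | (fun _ => x j : Pt 1) ∈ cube 1 l c} with hS
  rcases S.eq_empty_or_nonempty with h | h
  · rw [h]; simp; positivity
  · have ha := S.min'_mem h
    have hb := S.max'_mem h
    set a := S.min' h
    set b := S.max' h
    have hab : a ≤ b := S.min'_le_max' h
    have hcard : #S ≤ b - a + 1 := by
      have : S ⊆ Finset.Icc a b := fun j hj => Finset.mem_Icc.2 ⟨S.min'_le j hj, S.le_max' j hj⟩
      have := card_le_card this
      rw [Nat.card_Icc] at this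
      omega
    rw [hS, mem_filter, Finset.mem_Ico] at ha hb
    have h1 := hsep a b ha.1.1 hab hb.1.2
    have h2 := (ha.2 0).1
    have h3 := (hb.2 0).2
    have h4 : ((b : ℤ) - a) * 2 ^ Q < 2 ^ l := by nlinarith
    have h5 : ((b : ℝ) - a) * 2 ^ Q < 2 ^ l := by exact_mod_cast h4
    have h6 : (#S : ℝ) ≤ (b : ℝ) - a + 1 := by
      have : (#S : ℝ) ≤ ((b - a + 1 : ℕ) : ℝ) := by exact_mod_cast hcard
      rw [Nat.cast_add, Nat.cast_sub hab, Nat.cast_one] at this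
      exact this
    have h7 : (b : ℝ) - a ≤ 2 ^ l / 2 ^ Q := by
      rw [le_div_iff₀ (by positivity)]
      exact h5.le
    linarith

theorem cost_bound {Q l : ℕ} (hl : l ≤ 2 * Q + 7) {α : ℝ} (h1 : α ≤ 1 / 2) :
    (2 : ℝ) ^ l / 2 ^ Q + 1 ≤
      9 * 2 ^ (Q + 4) * (2 : ℝ) ^ (α * ((l : ℝ) - ((2 * Q + 6 : ℕ) : ℝ) - 1)) := by
  have hl' : (l : ℝ) ≤ 2 * Q + 7 := by exact_mod_cast hl
  set y : ℝ := (l : ℝ) - ((2 * Q + 6 : ℕ) : ℝ) - 1 with hy
  have hy' : y = l - (2 * Q + 7) := by rw [hy]; push_cast; ring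
  have hy0 : y ≤ 0 := by rw [hy']; linarith
  have hl0 : (0 : ℝ) ≤ l := by positivity
  have hcost : (2 : ℝ) ^ (y / 2) ≤ 2 ^ (α * y) :=
    Real.rpow_le_rpow_of_exponent_le (by norm_num) (by nlinarith)
  have e1 : (2 : ℝ) ^ l / 2 ^ Q = 8 * 2 ^ (Q + 4) * (2 : ℝ) ^ y := by
    have : (2 : ℝ) ^ y = 2 ^ l / 2 ^ (2 * Q + 7) := by
      rw [hy', Real.rpow_sub (by norm_num), Real.rpow_natCast]
      congr 1
      rw [← Real.rpow_natCast]
      push_cast
      rfl
    rw [this]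
    have e2 : (2 : ℝ) ^ (2 * Q + 7) = 8 * 2 ^ (Q + 4) * 2 ^ Q := by
      rw [show (8 : ℝ) = 2 ^ 3 by norm_num, ← pow_add, ← pow_add]
      congr 1; ring
    rw [e2]
    field_simp
  have e3 : (2 : ℝ) ^ y ≤ 2 ^ (y / 2) :=
    Real.rpow_le_rpow_of_exponent_le (by norm_num) (by linarith)
  have e4 : (1 : ℝ) ≤ 2 ^ (Q + 4) * (2 : ℝ) ^ (y / 2) := by
    rw [← Real.rpow_natCast, ← Real.rpow_add (by norm_num)]
    apply Real.one_le_rpow (by norm_num)
    rw [hy']
    push_cast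
    linarith
  have hP : (0 : ℝ) < 2 ^ (Q + 4) := by positivity
  rw [e1]
  calc 8 * 2 ^ (Q + 4) * (2 : ℝ) ^ y + 1
      ≤ 8 * 2 ^ (Q + 4) * 2 ^ (y / 2) + 2 ^ (Q + 4) * (2 : ℝ) ^ (y / 2) :=
        add_le_add (mul_le_mul_of_nonneg_left e3 (by positivity)) e4
    _ = 9 * 2 ^ (Q + 4) * 2 ^ (y / 2) := by ring
    _ ≤ 9 * 2 ^ (Q + 4) * (2 : ℝ) ^ (α * y) := mul_le_mul_of_nonneg_left hcost (by positivity)

theorem NN_ge {Q : ℕ} {x : ℕ → ℤ} {A : Set (Pt 1)}
    (hsep : ∀ j j' : ℕ, 2 ^ (Q + 5) ≤ j → j ≤ j' → j' < 2 ^ (Q + 5) + 2 ^ (Q + 4) →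
      ((j' : ℤ) - j) * 2 ^ Q ≤ x j' - x j)
    (hA : ∀ j : ℕ, 2 ^ (Q + 5) ≤ j → j < 2 ^ (Q + 5) + 2 ^ (Q + 4) →
      (fun _ => x j : Pt 1) ∈ A ∩ Sh 1 (2 * Q + 6))
    {α : ℝ} (h0 : 0 < α) (h1 : α ≤ 1 / 2) : 1 / 9 ≤ NN α A (2 * Q + 6) := by
  classical
  apply le_csInf
  · refine ⟨_, {(2 * Q + 6, fun _ => -1), (2 * Q + 6, fun _ => 0)}, ?_, rfl⟩
    rintro y ⟨_, hy⟩
    have hV : y ∈ V 1 (2 * Q + 6) := hy.1
    have hy0 := hV 0
    simp only [Set.mem_iUnion]
    rcases lt_or_ge (y 0) 0 with h | h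
    · refine ⟨(2 * Q + 6, fun _ => -1), by simp, fun i => ?_⟩
      have hi : i = 0 := Subsingleton.elim _ _
      subst hi
      constructor
      · linarith [hy0.1]
      · simpa using h
    · refine ⟨(2 * Q + 6, fun _ => 0), by simp, fun i => ?_⟩
      have hi : i = 0 := Subsingleton.elim _ _
      subst hi
      constructor
      · simpa using h
      · linarith [hy0.2]
  · rintro r ⟨C, hC, rfl⟩
    have hpos : ∀ c ∈ C, (0 : ℝ) ≤ 2 ^ (α * ((c.1 : ℝ) - ((2 * Q + 6 : ℕ) : ℝ) - 1)) :=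
      fun c _ => by positivity
    by_cases hbig : ∃ c ∈ C, 2 * Q + 7 < c.1
    · obtain ⟨c, hc, hlt⟩ := hbig
      have h2 : (1 : ℝ) ≤ 2 ^ (α * ((c.1 : ℝ) - ((2 * Q + 6 : ℕ) : ℝ) - 1)) := by
        apply Real.one_le_rpow (by norm_num)
        apply mul_nonneg h0.le
        have : ((2 * Q + 7 : ℕ) : ℝ) < c.1 := by exact_mod_cast hlt
        push_cast at this ⊢
        linarith
      have h3 := single_le_sum hpos hc
      linarith
    · push Not at hbig
      have h2 : ∑ c ∈ C, (#{j ∈ Finset.Ico (2 ^ (Q + 5)) (2 ^ (Q + 5) + 2 ^ (Q + 4)) |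
          (fun _ => x j : Pt 1) ∈ cube 1 c.1 c.2} : ℝ) ≥ 2 ^ (Q + 4) := by
        have h3 : #(Finset.Ico (2 ^ (Q + 5)) (2 ^ (Q + 5) + 2 ^ (Q + 4))) ≤
            ∑ c ∈ C, #{j ∈ Finset.Ico (2 ^ (Q + 5)) (2 ^ (Q + 5) + 2 ^ (Q + 4)) |
              (fun _ => x j : Pt 1) ∈ cube 1 c.1 c.2} := by
          refine le_trans (card_le_card ?_) card_biUnion_le
          intro j hj
          rw [Finset.mem_Ico] at hj
          have h4 := hC (hA j hj.1 hj.2)
          simp only [Set.mem_iUnion] at h4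
          obtain ⟨c, hc, hjc⟩ := h4
          rw [mem_biUnion]
          exact ⟨c, hc, mem_filter.2 ⟨Finset.mem_Ico.2 hj, hjc⟩⟩
        rw [Nat.card_Ico, add_tsub_cancel_left] at h3
        exact_mod_cast h3
      have h5 : ∑ c ∈ C, (#{j ∈ Finset.Ico (2 ^ (Q + 5)) (2 ^ (Q + 5) + 2 ^ (Q + 4)) |
          (fun _ => x j : Pt 1) ∈ cube 1 c.1 c.2} : ℝ) ≤ ∑ c ∈ C, 9 * 2 ^ (Q + 4) *
            (2 : ℝ) ^ (α * ((c.1 : ℝ) - ((2 * Q + 6 : ℕ) : ℝ) - 1)) := by
        apply sum_le_sum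
        intro c hc
        exact le_trans (count_le hsep c.1 c.2) (cost_bound (hbig c hc) h1)
      rw [← mul_sum] at h5
      have hP : (0 : ℝ) < 2 ^ (Q + 4) := by positivity
      have h6 := le_trans h2 h5
      have h7 : (2 : ℝ) ^ (Q + 4) * 1 ≤ 2 ^ (Q + 4) * (9 * ∑ c ∈ C,
          (2 : ℝ) ^ (α * ((c.1 : ℝ) - ((2 * Q + 6 : ℕ) : ℝ) - 1))) := by linarith
      have h8 := le_of_mul_le_mul_left h7 hP
      linarith

/-! ### The range on the good event -/

open Classical in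
/-- number of steps of level at least `k+1` among the first `i` -/
noncomputable def cc (k i : ℕ) (ω : ℕ → Pt 1) : ℕ := #{i' ∈ range i | ω i' ∈ Big (k + 1)}

theorem cc_zero (k : ℕ) (ω : ℕ → Pt 1) : cc k 0 ω = 0 := by simp [cc]

theorem cc_succ_of_mem {k i : ℕ} {ω : ℕ → Pt 1} (h : ω i ∈ Big (k + 1)) :
    cc k (i + 1) ω = cc k i ω + 1 := by
  classical
  unfold cc
  rw [range_add_one, filter_insert, if_pos h, card_insert_of_notMem (by simp)]

theorem cc_succ_of_notMem {k i : ℕ} {ω : ℕ → Pt 1} (h : ω i ∉ Big (k + 1)) :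
    cc k (i + 1) ω = cc k i ω := by
  classical
  unfold cc
  rw [range_add_one, filter_insert, if_neg h]

theorem cc_mono (k : ℕ) (ω : ℕ → Pt 1) : Monotone fun i => cc k i ω := by
  apply monotone_nat_of_le_succ
  intro i
  by_cases h : ω i ∈ Big (k + 1)
  · rw [cc_succ_of_mem h]; omega
  · rw [cc_succ_of_notMem h]

theorem exists_cc {k T j : ℕ} {ω : ℕ → Pt 1} (h : j ≤ cc k T ω) : ∃ i ≤ T, cc k i ω = j := by
  induction T with
  | zero =>
    rw [cc_zero] at h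
    exact ⟨0, le_rfl, by rw [cc_zero]; omega⟩
  | succ T ih =>
    by_cases h1 : j ≤ cc k T ω
    · obtain ⟨i, hi, hij⟩ := ih h1
      exact ⟨i, by omega, hij⟩
    · refine ⟨T + 1, le_rfl, ?_⟩
      by_cases h2 : ω T ∈ Big (k + 1)
      · rw [cc_succ_of_mem h2] at h ⊢; omega
      · rw [cc_succ_of_notMem h2] at h; omega

theorem X_lower {ω : ℕ → Pt 1} (hg : Good ω) (k i d : ℕ) :
    ((cc k (i + d) ω : ℤ) - cc k i ω) * 2 ^ M (k + 1) ≤ X (i + d) ω 0 - X i ω 0 := by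
  induction d with
  | zero => simp
  | succ d ih =>
    rw [← add_assoc, X_succ]
    have h0 := hg.nonneg (i + d)
    by_cases h : ω (i + d) ∈ Big (k + 1)
    · rw [cc_succ_of_mem h]
      have h1 : 2 ^ M (k + 1) ≤ ω (i + d) 0 := h
      push_cast
      linarith
    · rw [cc_succ_of_notMem h]
      linarith

theorem X_upper {ω : ℕ → Pt 1} (hg : Good ω) {k T : ℕ} (hno : ∀ i < T, ω i ∉ Big (k + 2))
    (i : ℕ) (hi : i ≤ T) : X i ω 0 ≤ (cc k i ω : ℤ) * 2 ^ M (k + 1) + i * 2 ^ M k := by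
  induction i with
  | zero => simp [X_apply, cc_zero]
  | succ i ih =>
    have ih' := ih (by omega)
    rw [X_succ]
    obtain ⟨l, hl⟩ := hg i
    have hpos : (0 : ℤ) < 2 ^ M k := by positivity
    have hlt : l < k + 2 := by
      by_contra hcon
      push Not at hcon
      apply hno i (by omega)
      show 2 ^ M (k + 2) ≤ ω i 0
      rw [hl]
      exact pow_le_pow_right₀ (by norm_num) (M_strictMono.monotone hcon)
    by_cases h : ω i ∈ Big (k + 1)
    · rw [cc_succ_of_mem h]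
      have h1 : ω i 0 ≤ 2 ^ M (k + 1) := by
        rw [hl]
        exact pow_le_pow_right₀ (by norm_num) (M_strictMono.monotone (by omega))
      push_cast
      linarith
    · rw [cc_succ_of_notMem h]
      have hlk : l ≤ k := by
        by_contra hcon
        push Not at hcon
        apply h
        show 2 ^ M (k + 1) ≤ ω i 0
        rw [hl]
        exact pow_le_pow_right₀ (by norm_num) (M_strictMono.monotone hcon)
      have h1 : ω i 0 ≤ 2 ^ M k := by
        rw [hl]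
        exact pow_le_pow_right₀ (by norm_num) (M_strictMono.monotone hlk)
      push_cast
      linarith

theorem cc_ge {k : ℕ} {ω : ℕ → Pt 1} (h : nEmp k ω < 6 * B k) : 2 * B k ≤ cc k (Tm k) ω := by
  classical
  have hq : 0 < 2 ^ m (k + 1) := by positivity
  -- nonempty blocks
  have h1 : #{b ∈ range (8 * B k) | ω ∉ Emp k b} ≤ cc k (Tm k) ω := by
    unfold cc
    refine le_trans (card_le_card ?_) (card_image_le (f := fun i => i / 2 ^ m (k + 1)))
    intro b hb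
    rw [mem_filter, mem_range] at hb
    obtain ⟨hb1, hb2⟩ := hb
    have h3 : ∃ i ∈ blk k b, ω i ∈ Big (k + 1) := by
      by_contra hcon
      push Not at hcon
      exact hb2 hcon
    obtain ⟨i, hi, hiB⟩ := h3
    unfold blk at hi
    rw [Finset.mem_Ico] at hi
    rw [mem_image]
    refine ⟨i, ?_, ?_⟩
    · rw [mem_filter, mem_range]
      refine ⟨lt_of_lt_of_le hi.2 ?_, hiB⟩
      unfold Tm
      exact Nat.mul_le_mul_right _ hb1
    · apply Nat.div_eq_of_lt_le hi.1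
      exact hi.2
  have h2 : #{b ∈ range (8 * B k) | ω ∈ Emp k b} + #{b ∈ range (8 * B k) | ω ∉ Emp k b} =
      8 * B k := by
    rw [card_filter_add_card_filter_not, card_range]
  unfold nEmp at h
  omega

theorem NN_of_Ev {ω : ℕ → Pt 1} (hg : Good ω) {k : ℕ} (hE : ω ∈ Ev k) {α : ℝ} (h0 : 0 < α)
    (h1 : α ≤ 1 / 2) : 1 / 9 ≤ NN α (Rg ω) (2 * M (k + 1) + 6) := by
  classical
  obtain ⟨hno, hemp⟩ := hE
  have hcc := cc_ge hemp
  have hB : B k = 2 ^ (M (k + 1) + 5) := rfl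
  have hj : ∀ j, j < 2 ^ (M (k + 1) + 5) + 2 ^ (M (k + 1) + 4) → j ≤ cc k (Tm k) ω := by
    intro j hj
    have : 2 ^ (M (k + 1) + 5) = 2 * 2 ^ (M (k + 1) + 4) := by rw [← pow_succ']
    omega
  have hex : ∀ j, ∃ i, j < 2 ^ (M (k + 1) + 5) + 2 ^ (M (k + 1) + 4) →
      i ≤ Tm k ∧ cc k i ω = j := by
    intro j
    by_cases h : j < 2 ^ (M (k + 1) + 5) + 2 ^ (M (k + 1) + 4)
    · obtain ⟨i, hi, hij⟩ := exists_cc (hj j h)
      exact ⟨i, fun _ => ⟨hi, hij⟩⟩
    · exact ⟨0, fun h' => absurd h' h⟩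
  choose idx hidx using hex
  refine NN_ge (x := fun j => X (idx j) ω 0) ?_ ?_ h0 h1
  · intro j j' _ hjj hj'
    obtain ⟨_, h3⟩ := hidx j (by omega)
    obtain ⟨_, h5⟩ := hidx j' hj'
    rcases le_total (idx j) (idx j') with h | h
    · obtain ⟨d, hd⟩ := Nat.exists_eq_add_of_le h
      have := X_lower hg k (idx j) d
      rw [← hd, h3, h5] at this
      exact this
    · have h6 : cc k (idx j') ω ≤ cc k (idx j) ω := cc_mono k ω h
      rw [h3, h5] at h6
      have h7 : j = j' := le_antisymm hjj h6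
      subst h7
      simp
  · intro j hj1 hj2
    obtain ⟨h2, h3⟩ := hidx j hj2
    refine ⟨⟨idx j, ?_⟩, ?_⟩
    · show X (idx j) ω = fun _ => X (idx j) ω 0
      funext i
      rw [Subsingleton.elim i 0]
    · -- bounds
      have hlow := X_lower hg k 0 (idx j)
      rw [zero_add, h3, cc_zero] at hlow
      have hX0 : X 0 ω 0 = 0 := by simp [X_apply]
      rw [hX0] at hlow
      have hup := X_upper hg hno (idx j) h2
      rw [h3] at hup
      have hT : ((idx j : ℕ) : ℤ) * 2 ^ M k ≤ 2 ^ (2 * M (k + 1) + 3) := by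
        have h8 : idx j * 2 ^ M k ≤ 2 ^ (2 * M (k + 1) + 3) := by
          have hTm : Tm k = 2 ^ (M (k + 1) + m (k + 1) + 8) := by
            unfold Tm B
            rw [show (8 : ℕ) = 2 ^ 3 by norm_num, ← pow_add, ← pow_add]
            congr 1; ring
          calc idx j * 2 ^ M k ≤ Tm k * 2 ^ M k := Nat.mul_le_mul_right _ h2
            _ = 2 ^ (M (k + 1) + m (k + 1) + 8 + M k) := by rw [hTm, ← pow_add]
            _ ≤ 2 ^ (2 * M (k + 1) + 3) := by
              apply Nat.pow_le_pow_right (by norm_num)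
              have : m (k + 1) + M k + 5 ≤ M (k + 1) := by rw [M_succ]; omega
              omega
        exact_mod_cast h8
      have hj1' : ((2 : ℤ) ^ (M (k + 1) + 5)) ≤ j := by exact_mod_cast hj1
      have hj2' : (j : ℤ) < 2 ^ (M (k + 1) + 5) + 2 ^ (M (k + 1) + 4) := by exact_mod_cast hj2
      have hP : (0 : ℤ) < 2 ^ M (k + 1) := by positivity
      have e1 : (2 : ℤ) ^ (M (k + 1) + 5) * 2 ^ M (k + 1) = 2 ^ (2 * M (k + 1) + 5) := by
        rw [← pow_add]; congr 1; ring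
      have e2 : (2 : ℤ) ^ (M (k + 1) + 4) * 2 ^ M (k + 1) = 2 ^ (2 * M (k + 1) + 4) := by
        rw [← pow_add]; congr 1; ring
      have e3 : (2 : ℤ) ^ (2 * M (k + 1) + 5) = 4 * 2 ^ (2 * M (k + 1) + 3) := by
        rw [show 2 * M (k + 1) + 5 = (2 * M (k + 1) + 3) + 2 by ring, pow_add]; ring
      have e4 : (2 : ℤ) ^ (2 * M (k + 1) + 4) = 2 * 2 ^ (2 * M (k + 1) + 3) := by
        rw [show 2 * M (k + 1) + 4 = (2 * M (k + 1) + 3) + 1 by ring, pow_add]; ring
      have e5 : (2 : ℤ) ^ (2 * M (k + 1) + 6) = 8 * 2 ^ (2 * M (k + 1) + 3) := by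
        rw [show 2 * M (k + 1) + 6 = (2 * M (k + 1) + 3) + 3 by ring, pow_add]; ring
      have hR : (0 : ℤ) < 2 ^ (2 * M (k + 1) + 3) := by positivity
      have hlow' : (2 : ℤ) ^ (2 * M (k + 1) + 5) ≤ X (idx j) ω 0 := by
        have h9 := mul_le_mul_of_nonneg_right hj1' hP.le
        rw [e1] at h9
        push_cast at hlow
        linarith
      have hup' : X (idx j) ω 0 < 2 ^ (2 * M (k + 1) + 6) := by
        have h9 := mul_lt_mul_of_pos_right hj2' hP
        rw [add_mul, e1, e2] at h9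
        linarith
      have hsplit : 2 * M (k + 1) + 6 = (2 * M (k + 1) + 5) + 1 := by ring
      show (fun _ => X (idx j) ω 0 : Pt 1) ∈ Sh 1 (2 * M (k + 1) + 6)
      rw [hsplit]
      refine ⟨fun i => ⟨?_, ?_⟩, fun hV => ?_⟩
      · show -2 ^ (2 * M (k + 1) + 5 + 1) ≤ X (idx j) ω 0
        have : (0 : ℤ) < 2 ^ (2 * M (k + 1) + 5 + 1) := by positivity
        linarith
      · exact hup'
      · exact absurd (hV 0).2 (not_lt.2 hlow')

theorem lowerH_ge {ω : ℕ → Pt 1} (hg : Good ω) (hE : ∃ᶠ k in atTop, ω ∈ Ev k) :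
    ((1 / 2 : ℝ) : EReal) ≤ lowerH (Rg ω) := by
  apply le_sInf
  rintro _ ⟨α, ⟨h0, hlim⟩, rfl⟩
  rw [EReal.coe_le_coe_iff]
  by_contra hcon
  push Not at hcon
  have h1 : ∀ᶠ n in atTop, NN α (Rg ω) n < 1 / 9 := by
    have := hlim.eventually (gt_mem_nhds (show (0 : ℝ) < 1 / 9 by norm_num))
    exact this
  have h2 : Tendsto (fun k : ℕ => 2 * M (k + 1) + 6) atTop atTop := by
    apply tendsto_atTop_mono (f := fun k => k) _ tendsto_id
    intro k
    have : k + 1 ≤ M (k + 1) := M_strictMono.le_apply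
    omega
  obtain ⟨k, hk, hlt⟩ := (hE.and_eventually (h2.eventually h1)).exists
  exact absurd (NN_of_Ev hg hk h0 hcon.le) (not_le.2 hlt)

/-- **Negative answer to Q1.** -/
theorem result : ∃ p : PMF (Pt 1), Transient p ∧
    ¬ (∀ᵐ ω ∂(law p), lowerH (Rg ω) = lowerM (Rg ω) ∧ lowerM (Rg ω) = lamX p) ∧
    lamX p = 0 ∧ 0 < law p {ω | ((1 / 2 : ℝ) : EReal) ≤ lowerH (Rg ω)} := by
  have hpos : 0 < law p {ω | ((1 / 2 : ℝ) : EReal) ≤ lowerH (Rg ω)} := by
    refine lt_of_lt_of_le limsup_pos (measure_mono_ae ?_)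
    filter_upwards [ae_step] with ω hω hE
    exact lowerH_ge hω hE
  refine ⟨p, transient, fun hae => ?_, lam_zero, hpos⟩
  have h1 : law p {ω | ((1 / 2 : ℝ) : EReal) ≤ lowerH (Rg ω)} = 0 := by
    have h2 : ∀ᵐ ω ∂(law p), ¬ ((1 / 2 : ℝ) : EReal) ≤ lowerH (Rg ω) := by
      filter_upwards [hae] with ω hω
      intro hcon
      rw [hω.1, hω.2, lam_zero] at hcon
      have : ((1 / 2 : ℝ) : EReal) ≤ ((0 : ℝ) : EReal) := hcon
      rw [EReal.coe_le_coe_iff] at this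
      norm_num at this
    rw [ae_iff] at h2
    simpa only [not_not] using h2
  exact hpos.ne' h1

end Pool.Agent.Results.MP_fbfbfd_pr.LowerDimensionsDiffer
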